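import Mathlib
import Pool.Agent.H.MP_d572aa_gt.A

namespace Pool.Agent.Results.MP_d572aa_gt.Twist

open MeasureTheory Set Module Matrix
open Pool.Agent.H.MP_d572aa_gt
open scoped RealInnerProductSpace

/-- Euclidean space. -/
abbrev E (n : ℕ) := EuclideanSpace ℝ (Fin n)

/-- A convex body. -/
def Body {n : ℕ} (K : Set (E n)) : Prop := IsCompact K ∧ Convex ℝ K ∧ (interior K).Nonempty

/-- Real `3 × 3` matrices. -/
abbrev M3 := Matrix (Fin 3) (Fin 3) ℝ

/-- The rigid motion `x ↦ R x + c` in coordinates. -/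
def mv (R : M3) (c : Fin 3 → ℝ) (x : E 3) : Fin 3 → ℝ := R *ᵥ x.ofLp + c

/-- The point of the plane `x₃ = 0` below `y`, in the coordinates `x₁, x₂`. -/
def flat (y : Fin 3 → ℝ) : E 2 := WithLp.toLp 2 ![y 0, y 1]

/-- A rotation matrix. -/
def IsRot (R : M3) : Prop := R ∈ specialOrthogonalGroup (Fin 3) ℝ

/-- A continuous path of orientation preserving rigid motions. -/
def IsMotion (R : ℝ → M3) (c : ℝ → Fin 3 → ℝ) : Prop :=
  ContinuousOn R (Icc 0 1) ∧ ContinuousOn c (Icc 0 1) ∧ ∀ t ∈ Icc (0 : ℝ) 1, IsRot (R t)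

/-- The moved body meets the plane `x₃ = 0` inside the door. -/
def Fits (K : Set (E 3)) (D : Set (E 2)) (R : M3) (c : Fin 3 → ℝ) : Prop :=
  ∀ x ∈ K, mv R c x 2 = 0 → flat (mv R c x) ∈ D

/-- `K` can be moved through the door `D`, a subset of the plane `x₃ = 0` with coordinates
`x₁, x₂`. -/
def Passes (K : Set (E 3)) (D : Set (E 2)) : Prop :=
  ∃ (R : ℝ → M3) (c : ℝ → Fin 3 → ℝ), IsMotion R c ∧
    (∀ x ∈ K, 0 < mv (R 0) (c 0) x 2) ∧ (∀ x ∈ K, mv (R 1) (c 1) x 2 < 0) ∧
    ∀ t ∈ Icc (0 : ℝ) 1, Fits K D (R t) (c t)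

/-- The plane orthogonal to `u`. -/
noncomputable abbrev Perp (u : E 3) : Submodule ℝ (E 3) := (Submodule.span ℝ {u})ᗮ

/-- The orthogonal projection of `K` onto the plane orthogonal to `u`. -/
noncomputable def shadow (K : Set (E 3)) (u : E 3) : Set (Perp u) :=
  (Perp u).orthogonalProjectionOnto '' K

/-- The area of the orthogonal projection of `K` onto the plane orthogonal to `u`. -/
noncomputable def projArea (K : Set (E 3)) (u : E 3) : ℝ := volume.real (shadow K u)

/-- The tetrahedron. -/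
def K : Set (E 3) := {x | 100 * |x 0| ≤ 100 - x 2 ∧ 100 * |x 1| ≤ x 2}

/-- The door. -/
def D : Set (E 2) := {x | |x 0| + |x 1| ≤ 1 ∧ |x 1| ≤ 71 / 100}

theorem cvx (a b x y : ℝ) (ha : 0 ≤ a) (hb : 0 ≤ b) : |a * x + b * y| ≤ a * |x| + b * |y| :=
  (abs_add_le _ _).trans_eq (by rw [abs_mul, abs_mul, abs_of_nonneg ha, abs_of_nonneg hb])

theorem cpt {n : ℕ} {S : Set (E n)} (h : IsClosed S) (M : ℝ) (hM : ∀ x ∈ S, ∀ i, |x i| ≤ M) :
    IsCompact S := by
  refine ((EuclideanSpace.equiv (Fin n) ℝ).toHomeomorph.isCompact_preimage.2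
    (isCompact_Icc (a := fun _ => -M) (b := fun _ => M))).of_isClosed_subset h fun x hx => ?_
  exact ⟨fun i => (abs_le.1 (hM x hx i)).1, fun i => (abs_le.1 (hM x hx i)).2⟩

theorem bodyK : Body K := by
  refine ⟨cpt (IsClosed.and (isClosed_le (by fun_prop) (by fun_prop))
    (isClosed_le (by fun_prop) (by fun_prop))) 100 fun x hx i => ?_, ?_,
    ⟨WithLp.toLp 2 ![0, 0, 50], ?_⟩⟩
  · have := hx.1
    have := hx.2
    have := abs_nonneg (x 0)
    have := abs_nonneg (x 1)
    fin_cases i <;> simp <;> try linarith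
    exact abs_le.2 ⟨by linarith, by linarith⟩
  · intro x hx y hy a b ha hb hab
    have := cvx a b (x 0) (y 0) ha hb
    have := cvx a b (x 1) (y 1) ha hb
    simp only [K, mem_ofPred_eq, PiLp.add_apply, PiLp.smul_apply, smul_eq_mul] at *
    constructor <;> nlinarith [hx.1, hx.2, hy.1, hy.2]
  · refine mem_interior.2 ⟨{x | 100 * |x 0| < 100 - x 2} ∩ {x | 100 * |x 1| < x 2},
      fun x hx => ⟨le_of_lt hx.1, le_of_lt hx.2⟩,
      (isOpen_lt (by fun_prop) (by fun_prop)).inter (isOpen_lt (by fun_prop) (by fun_prop)), ?_⟩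
    simp; norm_num

theorem bodyD : Body D := by
  refine ⟨cpt (IsClosed.and (isClosed_le (by fun_prop) (by fun_prop))
    (isClosed_le (by fun_prop) (by fun_prop))) 1 fun x hx i => ?_, ?_, ⟨0, ?_⟩⟩
  · have := hx.1
    have := abs_nonneg (x 0)
    have := abs_nonneg (x 1)
    fin_cases i <;> simp <;> linarith
  · intro x hx y hy a b ha hb hab
    have := cvx a b (x 0) (y 0) ha hb
    have := cvx a b (x 1) (y 1) ha hb
    simp only [D, mem_ofPred_eq, PiLp.add_apply, PiLp.smul_apply, smul_eq_mul] at *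
    constructor <;> nlinarith [hx.1, hx.2, hy.1, hy.2]
  · refine mem_interior.2 ⟨{x | |x 0| + |x 1| < 1} ∩ {x | |x 1| < 71 / 100},
      fun x hx => ⟨le_of_lt hx.1, le_of_lt hx.2⟩,
      (isOpen_lt (by fun_prop) (by fun_prop)).inter (isOpen_lt (by fun_prop) (by fun_prop)), ?_⟩
    simp

theorem volD : volume.real D ≤ 1835 / 1000 := by
  let S : Set (ℝ × ℝ) := regionBetween (fun y => |y| - 1001 / 1000) (fun y => 1001 / 1000 - |y|)
    (Icc (-(71 / 100)) (71 / 100))
  have mS : MeasurableSet S :=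
    measurableSet_regionBetween (by fun_prop) (by fun_prop) measurableSet_Icc
  have mp : MeasurePreserving (Prod.swap ∘ co) volume volume :=
    (Measure.measurePreserving_swap (μ := volume) (ν := volume)).comp co_mp
  have sub : D ⊆ (Prod.swap ∘ co) ⁻¹' S := fun x hx => by
    have a := hx.1
    have b := abs_le.1 hx.2
    have c := abs_le.1 (show |x 0| ≤ 1 - |x 1| by linarith)
    exact ⟨b, show |x 1| - _ < x 0 by linarith, show x 0 < _ - |x 1| by linarith⟩
  have v : volume S = ENNReal.ofReal (1146650 / 625000) := by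
    rw [Measure.volume_eq_prod, volume_regionBetween_eq_integral
      (by fun_prop : Continuous fun y : ℝ => |y| - 1001 / 1000).integrableOn_Icc
      (by fun_prop : Continuous fun y : ℝ => 1001 / 1000 - |y|).integrableOn_Icc
      measurableSet_Icc (fun x hx => by linarith [abs_le.2 hx])]
    congr 1
    have c : Continuous fun y : ℝ => 1001 / 1000 - |y| - (|y| - 1001 / 1000) := by fun_prop
    rw [integral_Icc_eq_integral_Ioc, ← intervalIntegral.integral_of_le (by norm_num)]
    simp only [Pi.sub_apply]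
    rw [← intervalIntegral.integral_add_adjacent_intervals (b := 0) (c.intervalIntegrable _ _)
      (c.intervalIntegrable _ _),
      intervalIntegral.integral_congr (g := fun y => 1001 / 500 + 2 * y) (fun y hy => by
        rw [uIcc_of_le (by norm_num)] at hy
        simp only [abs_of_nonpos hy.2]; ring),
      intervalIntegral.integral_congr (a := 0) (g := fun y => 1001 / 500 - 2 * y) (fun y hy => by
        rw [uIcc_of_le (by norm_num)] at hy
        simp only [abs_of_nonneg hy.1]; ring),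
      intervalIntegral.integral_add (by simp) (Continuous.intervalIntegrable (by fun_prop) _ _),
      intervalIntegral.integral_sub (by simp) (Continuous.intervalIntegrable (by fun_prop) _ _)]
    rw [intervalIntegral.integral_const_mul, intervalIntegral.integral_const_mul, integral_id,
      integral_id]
    norm_num
  have := measure_mono (μ := volume) sub
  rw [mp.measure_preimage mS.nullMeasurableSet, v] at this
  exact (ENNReal.toReal_le_of_le_ofReal (by norm_num) this).trans (by norm_num)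

theorem inner_proj {u : E 3} (hu : ‖u‖ = 1) (a b : E 3) :
    ⟪(Perp u).orthogonalProjectionOnto a, (Perp u).orthogonalProjectionOnto b⟫ =
      ⟪a, b⟫ - ⟪u, a⟫ * ⟪u, b⟫ := by
  change ⟪(Perp u).starProjection a, (Perp u).starProjection b⟫ = _
  simp only [Submodule.starProjection_orthogonal_val, Submodule.starProjection_unit_singleton ℝ hu,
    inner_sub_left, inner_sub_right, real_inner_smul_left, real_inner_smul_right,
    real_inner_self_eq_norm_sq u, hu, real_inner_comm u a]
  ring

theorem proj (u : E 3) (hu : ‖u‖ = 1) : 1999 / 1000 ≤ projArea K u := by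
  have h0 : u ≠ 0 := by rintro rfl; simp at hu
  have : Fact (finrank ℝ (E 3) = 2 + 1) := ⟨by simp⟩
  have g : ∀ p ∈ K, ∀ q ∈ K, ∀ r ∈ K, ∀ w ∈ K,
      (⟪q - p, q - p⟫ - ⟪u, q - p⟫ * ⟪u, q - p⟫) * (⟪r - w, r - w⟫ - ⟪u, r - w⟫ * ⟪u, r - w⟫) -
        (⟪q - p, r - w⟫ - ⟪u, q - p⟫ * ⟪u, r - w⟫) ^ 2 ≤ (2 * projArea K u) ^ 2 :=
    fun p hp q hq r hr w hw => by
      have := gram (Submodule.finrank_orthogonal_span_singleton h0)
        (bodyK.2.1.linear_image (Perp u).orthogonalProjectionOnto.toLinearMap)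
        (bodyK.1.image (Perp u).orthogonalProjectionOnto.continuous) (mem_image_of_mem _ hp)
        (mem_image_of_mem _ hq) (mem_image_of_mem _ hr) (mem_image_of_mem _ hw)
      simp only [← map_sub, ContinuousLinearMap.coe_coe, inner_proj hu] at this
      exact this
  have n : u 0 ^ 2 + u 1 ^ 2 + u 2 ^ 2 = 1 := by
    have := EuclideanSpace.real_norm_sq_eq u
    rw [hu, Fin.sum_univ_three] at this
    linarith
  have m1 : (WithLp.toLp 2 ![1, 0, 0] : E 3) ∈ K := by simp [K]
  have m2 : (WithLp.toLp 2 ![-1, 0, 0] : E 3) ∈ K := by simp [K]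
  have m3 : (WithLp.toLp 2 ![0, 1, 100] : E 3) ∈ K := by simp [K]
  have m4 : (WithLp.toLp 2 ![0, -1, 100] : E 3) ∈ K := by simp [K]
  have g0 := g _ m1 _ m2 _ m3 _ m4
  have g1 := g _ m1 _ m2 _ m3 _ m1
  have g2 := g _ m1 _ m2 _ m4 _ m1
  have g3 := g _ m3 _ m4 _ m1 _ m3
  have g4 := g _ m3 _ m4 _ m2 _ m3
  simp only [PiLp.inner_apply, Fin.sum_univ_three, PiLp.sub_apply, Matrix.cons_val_zero,
    Matrix.cons_val_one, Matrix.cons_val, RCLike.inner_apply, conj_trivial] at g0 g1 g2 g3 g4
  have p0 : 0 ≤ projArea K u := measureReal_nonneg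
  generalize projArea K u = A at *
  have f0 : 16 * u 2 ^ 2 ≤ (2 * A) ^ 2 := le_of_eq_of_le (by linear_combination 16 * n) g0
  have f1 : 4 * (u 2 - 100 * u 1) ^ 2 ≤ (2 * A) ^ 2 :=
    le_of_eq_of_le (by linear_combination 40004 * n) g1
  have f2 : 4 * (u 2 + 100 * u 1) ^ 2 ≤ (2 * A) ^ 2 :=
    le_of_eq_of_le (by linear_combination 40004 * n) g2
  have f3 : 4 * (u 2 + 100 * u 0) ^ 2 ≤ (2 * A) ^ 2 :=
    le_of_eq_of_le (by linear_combination 40004 * n) g3
  have f4 : 4 * (u 2 - 100 * u 0) ^ 2 ≤ (2 * A) ^ 2 :=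
    le_of_eq_of_le (by linear_combination 40004 * n) g4
  clear g0 g1 g2 g3 g4 g
  by_contra k
  have k2 : A ^ 2 < (1999 / 1000) ^ 2 := by gcongr; exact not_le.1 k
  nlinarith

/-- Rotation about the third axis. -/
noncomputable def rot (θ : ℝ) : Matrix (Fin 3) (Fin 3) ℝ :=
  !![Real.cos θ, -Real.sin θ, 0; Real.sin θ, Real.cos θ, 0; 0, 0, 1]

theorem passes : Passes K D := by
  let θ : ℝ → ℝ := fun t => Real.pi / 2 * max 0 (min (3 * t - 1) 1)
  let s : ℝ → ℝ := fun t => -1 + 51 * (min (3 * t) 1 + max (3 * t - 2) 0)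
  have m2 : ∀ t (x : E 3), mv (rot (θ t)) ![0, 0, -s t] x 2 = x 2 - s t := fun t x => by
    simp [mv, rot, dotProduct, Fin.sum_univ_three, sub_eq_add_neg]
  refine ⟨fun t => rot (θ t), fun t => ![0, 0, -s t], ⟨Continuous.continuousOn ?_,
    Continuous.continuousOn (by fun_prop), fun t _ => ?_⟩, fun x hx => ?_, fun x hx => ?_,
    fun t _ x hx h => ?_⟩
  · refine continuous_matrix fun i j => ?_
    fin_cases i <;> fin_cases j <;> simp [rot] <;> fun_prop
  · rw [IsRot, mem_specialOrthogonalGroup_iff, mem_orthogonalGroup_iff]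
    constructor
    · ext i j
      fin_cases i <;> fin_cases j <;>
        simp [rot, Matrix.mul_apply, Fin.sum_univ_three, ← sq] <;> ring
    · simp [rot, det_fin_three, ← sq]
  · rw [m2]
    have := hx.2
    have := abs_nonneg (x 1)
    norm_num [s]; linarith
  · rw [m2]
    have := hx.1
    have := abs_nonneg (x 0)
    norm_num [s]; linarith
  · rw [m2, sub_eq_zero] at h
    have a := hx.1
    have b := hx.2
    have e0 : flat (mv (rot (θ t)) ![0, 0, -s t] x) 0 =
        Real.cos (θ t) * x 0 - Real.sin (θ t) * x 1 := by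
      simp [flat, mv, rot, dotProduct, Fin.sum_univ_three, sub_eq_add_neg]
    have e1 : flat (mv (rot (θ t)) ![0, 0, -s t] x) 1 =
        Real.sin (θ t) * x 0 + Real.cos (θ t) * x 1 := by
      simp [flat, mv, rot, dotProduct, Fin.sum_univ_three]
    simp only [D, mem_ofPred_eq, e0, e1]
    rcases le_total (3 * t) 1 with h1 | h1
    · have : θ t = 0 := by
        simp only [θ]; rw [max_eq_left ((min_le_left _ _).trans (by linarith)), mul_zero]
      have : s t ≤ 50 := by
        simp only [s]; rw [min_eq_left h1, max_eq_right (by linarith)]; linarith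
      simp only [*, Real.cos_zero, Real.sin_zero, one_mul, zero_mul, sub_zero, zero_add] at *
      constructor <;> linarith
    rcases le_total (3 * t) 2 with h2 | h2
    · have : s t = 50 := by
        simp only [s]; rw [min_eq_right h1, max_eq_right (by linarith)]; norm_num
      have a' : x 0 ^ 2 ≤ (1 / 2) ^ 2 := by rw [← sq_abs]; gcongr; linarith
      have b' : x 1 ^ 2 ≤ (1 / 2) ^ 2 := by rw [← sq_abs]; gcongr; linarith
      have c := Real.sin_sq_add_cos_sq (θ t)
      set X := Real.cos (θ t) * x 0 - Real.sin (θ t) * x 1 with hX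
      set Y := Real.sin (θ t) * x 0 + Real.cos (θ t) * x 1 with hY
      have d : |X| ^ 2 + |Y| ^ 2 ≤ 1 / 2 := by
        have : X ^ 2 + Y ^ 2 = x 0 ^ 2 + x 1 ^ 2 := by
          rw [hX, hY]; linear_combination (x 0 ^ 2 + x 1 ^ 2) * c
        rw [sq_abs, sq_abs]; linarith
      constructor <;> by_contra k <;>
        nlinarith [abs_nonneg X, abs_nonneg Y, sq_nonneg (|X| - |Y|)]
    · have : θ t = Real.pi / 2 := by
        simp only [θ]; rw [min_eq_right (by linarith), max_eq_right zero_le_one, mul_one]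
      have : 50 ≤ s t := by
        simp only [s]; rw [min_eq_right h1, max_eq_left (by linarith)]; linarith
      simp only [*, Real.cos_pi_div_two, Real.sin_pi_div_two, one_mul, zero_mul, zero_sub,
        add_zero, abs_neg] at *
      constructor <;> linarith

theorem result : ∃ (K : Set (E 3)) (D : Set (E 2)), Body K ∧ Body D ∧ Passes K D ∧
    ∀ u : E 3, ‖u‖ = 1 → volume.real D < projArea K u ∧
      108 / 100 * volume.real D < projArea K u :=
  ⟨K, D, bodyK, bodyD, passes, fun u hu => by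
    constructor <;> linarith [proj u hu, volD]⟩

end Pool.Agent.Results.MP_d572aa_gt.Twist
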